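import Pool.Agent.Lib.MP_7b6720_al.INV.Iface

set_option autoImplicit false

/-!
# Module GAP: the lazy averaging operator contracts functions of mean zero
-/

namespace Pool.Agent.SymDiam.H28

open Finset

theorem sum_smul_eq {G V : Type} [Group G] [Fintype V] [MulAction G V] (s : G) (F : V → ℝ) :
    ∑ v, F (s • v) = ∑ v, F v :=
  Equiv.sum_comp (MulAction.toPerm s) F

theorem gap (hP : PoinS) : GapS := by
  intro G _ S hd hS V _ _ _ htr f hf
  have hpoin := hP G S hS V htr f hf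
  set E : ℝ := ∑ s ∈ S, ∑ v, (f v - f (s • v)) ^ 2 with hE
  set d : ℝ := (S.card : ℝ) with hdd
  have hd0 : 0 < d := by rw [hdd]; exact_mod_cast hd
  set T : ℝ := ∑ v, f v ^ 2 with hT
  have hT0 : 0 ≤ T := Finset.sum_nonneg fun v _ => sq_nonneg _
  -- the scalar product with the average
  have h1 : E = 2 * d * T - 2 * ∑ v, f v * ∑ s ∈ S, f (s • v) := by
    have h2 : ∀ s ∈ S, ∑ v, (f v - f (s • v)) ^ 2 = 2 * T - 2 * ∑ v, f v * f (s • v) := by
      intro s _
      have h3 : ∀ v, (f v - f (s • v)) ^ 2 = f v ^ 2 - 2 * (f v * f (s • v)) + f (s • v) ^ 2 := by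
        intro v; ring
      simp only [h3, Finset.sum_add_distrib, Finset.sum_sub_distrib, ← Finset.mul_sum]
      rw [sum_smul_eq s fun v => f v ^ 2]
      ring
    rw [hE, Finset.sum_congr rfl h2, Finset.sum_sub_distrib, Finset.sum_const, nsmul_eq_mul,
      ← Finset.mul_sum, Finset.sum_comm]
    simp only [← Finset.mul_sum]
    ring
  -- the average is a contraction
  have h4 : ∑ v, (∑ s ∈ S, f (s • v)) ^ 2 ≤ d ^ 2 * T := by
    calc ∑ v, (∑ s ∈ S, f (s • v)) ^ 2 ≤ ∑ v, d * ∑ s ∈ S, f (s • v) ^ 2 :=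
          Finset.sum_le_sum fun v _ => sq_sum_le_card_mul_sum_sq
      _ = d * ∑ s ∈ S, ∑ v, f (s • v) ^ 2 := by rw [← Finset.mul_sum, Finset.sum_comm]
      _ = d * ∑ s ∈ S, T := by
        congr 1
        exact Finset.sum_congr rfl fun s _ => sum_smul_eq s fun v => f v ^ 2
      _ = d ^ 2 * T := by rw [Finset.sum_const, nsmul_eq_mul]; ring
  clear_value E T d
  have h5 : ∑ v, (1 / 2 * f v + 1 / (2 * d) * ∑ s ∈ S, f (s • v)) ^ 2 =
      1 / 4 * T + 1 / (2 * d) * ∑ v, f v * ∑ s ∈ S, f (s • v) +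
        1 / (4 * d ^ 2) * ∑ v, (∑ s ∈ S, f (s • v)) ^ 2 := by
    rw [hT, Finset.mul_sum, Finset.mul_sum, Finset.mul_sum, ← Finset.sum_add_distrib,
      ← Finset.sum_add_distrib]
    refine Finset.sum_congr rfl fun v _ => ?_
    field_simp
    ring
  rw [h5]
  have h6 : ∑ v, f v * ∑ s ∈ S, f (s • v) = d * T - E / 2 := by linarith
  rw [h6]
  have h7 : 1 / (4 * d ^ 2) * ∑ v, (∑ s ∈ S, f (s • v)) ^ 2 ≤ 1 / 4 * T := by
    calc 1 / (4 * d ^ 2) * ∑ v, (∑ s ∈ S, f (s • v)) ^ 2 ≤ 1 / (4 * d ^ 2) * (d ^ 2 * T) :=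
          mul_le_mul_of_nonneg_left h4 (by positivity)
      _ = 1 / 4 * T := by field_simp
  have h8 : 1 / (2 * d) * (d * T - E / 2) = 1 / 2 * T - E / (4 * d) := by
    field_simp
    ring
  rw [h8]
  rcases Nat.eq_zero_or_pos (Fintype.card V) with h0 | h0
  · have : IsEmpty V := Fintype.card_eq_zero_iff.1 h0
    have hT' : T = 0 := by rw [hT]; simp
    have hE' : E = 0 := by rw [hE]; simp
    rw [hT', mul_zero] at h7
    rw [hT', hE', mul_zero, zero_div, mul_zero, mul_zero]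
    linarith
  · have hN : (0 : ℝ) < (Fintype.card V : ℝ) ^ 3 := by positivity
    have h9 : 1 / (2 * d * (Fintype.card V : ℝ) ^ 3) * T ≤ E / (4 * d) := by
      rw [div_mul_eq_mul_div, one_mul, div_le_div_iff₀ (by positivity) (by positivity)]
      nlinarith [mul_le_mul_of_nonneg_left hpoin (by positivity : (0:ℝ) ≤ 2 * d)]
    have h10 : (1 - 1 / (2 * d * (Fintype.card V : ℝ) ^ 3)) * T =
        T - 1 / (2 * d * (Fintype.card V : ℝ) ^ 3) * T := by ring
    rw [h10]
    linarith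

end Pool.Agent.SymDiam.H28
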