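import Pool.Agent.Lib.MP_7b6720_al.INV.Iface

set_option autoImplicit false

/-!
# Module POIN: a Poincare inequality for a transitive action
-/

namespace Pool.Agent.SymDiam.H28

open Finset

/-- the graph of the action of a finite set -/
def actGraph {G V : Type} [Group G] [MulAction G V] (S : Finset G) : SimpleGraph V :=
  SimpleGraph.fromRel fun v w => ∃ s ∈ S, s • v = w

theorem actGraph_reach {G V : Type} [Group G] [MulAction G V] (S : Finset G)
    {g : G} (hg : g ∈ Subgroup.closure (S : Set G)) :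
    ∀ v : V, (actGraph S).Reachable v (g • v) := by
  induction hg using Subgroup.closure_induction with
  | mem x hx =>
    intro v
    by_cases h : v = x • v
    · rw [← h]
    · exact (SimpleGraph.Adj.reachable (by
        rw [actGraph, SimpleGraph.fromRel_adj]
        exact ⟨h, Or.inl ⟨x, hx, rfl⟩⟩))
  | one => intro v; rw [one_smul]
  | mul x y _ _ hx hy =>
    intro v
    rw [mul_smul]
    exact (hy v).trans (hx _)
  | inv x _ hx =>
    intro v
    have := hx (x⁻¹ • v)
    rw [smul_inv_smul] at this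
    exact this.symm

theorem poin : PoinS := by
  intro G _ S hS V _ _ _ htr f hf
  set E : ℝ := ∑ s ∈ S, ∑ v, (f v - f (s • v)) ^ 2 with hE
  have hE0 : 0 ≤ E := Finset.sum_nonneg fun s _ => Finset.sum_nonneg fun v _ => sq_nonneg _
  have hadj : ∀ v w : V, (actGraph (V := V) S).Adj v w → |f v - f w| ≤ Real.sqrt E := by
    have key : ∀ v w : V, (∃ s ∈ S, s • v = w) → |f v - f w| ≤ Real.sqrt E := by
      rintro v w ⟨s, hs, rfl⟩
      apply Real.abs_le_sqrt
      calc (f v - f (s • v)) ^ 2 ≤ ∑ v, (f v - f (s • v)) ^ 2 :=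
            Finset.single_le_sum (f := fun v => (f v - f (s • v)) ^ 2)
              (fun v _ => sq_nonneg _) (Finset.mem_univ v)
        _ ≤ E := Finset.single_le_sum (f := fun s => ∑ v, (f v - f (s • v)) ^ 2)
              (fun s _ => Finset.sum_nonneg fun v _ => sq_nonneg _) hs
    intro v w h
    rw [actGraph, SimpleGraph.fromRel_adj] at h
    rcases h.2 with h | h
    · exact key v w h
    · rw [abs_sub_comm]; exact key w v h
  have hwalk : ∀ (v w : V) (p : (actGraph (V := V) S).Walk v w),
      |f v - f w| ≤ p.length * Real.sqrt E := by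
    intro v w p
    induction p with
    | nil => simp
    | @cons u v w h p ih =>
      have h1 := hadj _ _ h
      rw [SimpleGraph.Walk.length_cons]
      push_cast
      calc |f u - f w| = |(f u - f v) + (f v - f w)| := by ring_nf
        _ ≤ |f u - f v| + |f v - f w| := abs_add_le _ _
        _ ≤ (p.length + 1) * Real.sqrt E := by linarith
  have hN : ∀ v w : V, (f v - f w) ^ 2 ≤ (Fintype.card V : ℝ) ^ 2 * E := by
    intro v w
    obtain ⟨g, hg, rfl⟩ := htr v w
    obtain ⟨p⟩ := actGraph_reach S hg v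
    classical
    have h1 := hwalk _ _ (p.toPath : (actGraph (V := V) S).Walk v (g • v))
    have h2 : ((p.toPath : (actGraph (V := V) S).Walk v (g • v)).length : ℝ) ≤
        (Fintype.card V : ℝ) := by
      exact_mod_cast (p.toPath.2.length_lt).le
    have h3 : |f v - f (g • v)| ≤ (Fintype.card V : ℝ) * Real.sqrt E :=
      h1.trans (mul_le_mul_of_nonneg_right h2 (Real.sqrt_nonneg _))
    calc (f v - f (g • v)) ^ 2 = |f v - f (g • v)| ^ 2 := (sq_abs _).symm
      _ ≤ ((Fintype.card V : ℝ) * Real.sqrt E) ^ 2 := by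
        apply pow_le_pow_left₀ (abs_nonneg _) h3
      _ = (Fintype.card V : ℝ) ^ 2 * E := by rw [mul_pow, Real.sq_sqrt hE0]
  have hsum : ∑ v, ∑ w, (f v - f w) ^ 2 = 2 * (Fintype.card V : ℝ) * ∑ v, f v ^ 2 := by
    have : ∀ v w : V, (f v - f w) ^ 2 = f v ^ 2 - 2 * f v * f w + f w ^ 2 := by
      intro v w; ring
    simp only [this, Finset.sum_add_distrib, Finset.sum_sub_distrib, ← Finset.mul_sum, hf,
      Finset.sum_const, Finset.card_univ, nsmul_eq_mul, mul_zero, sub_zero]
    ring
  have hle : ∑ v, ∑ w, (f v - f w) ^ 2 ≤ (Fintype.card V : ℝ) ^ 2 *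
      ((Fintype.card V : ℝ) ^ 2 * E) := by
    calc ∑ v, ∑ w, (f v - f w) ^ 2 ≤ ∑ _v : V, ∑ _w : V, (Fintype.card V : ℝ) ^ 2 * E :=
          Finset.sum_le_sum fun v _ => Finset.sum_le_sum fun w _ => hN v w
      _ = _ := by
        simp only [Finset.sum_const, Finset.card_univ, nsmul_eq_mul]
        ring
  rw [hsum] at hle
  rcases Nat.eq_zero_or_pos (Fintype.card V) with h0 | h0
  · have : IsEmpty V := Fintype.card_eq_zero_iff.1 h0
    simp
  · have hpos : (0 : ℝ) < (Fintype.card V : ℝ) := by exact_mod_cast h0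
    have h4 : (Fintype.card V : ℝ) * (2 * ∑ v, f v ^ 2) ≤ (Fintype.card V : ℝ) *
        ((Fintype.card V : ℝ) ^ 3 * E) := by
      nlinarith [hle]
    exact le_of_mul_le_mul_left h4 hpos

end Pool.Agent.SymDiam.H28
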