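import Pool.Agent.Lib.MP_7b6720_al.INV.Iface

set_option autoImplicit false

/-!
# Module WALK: the lazy random walk
-/

namespace Pool.Agent.SymDiam.H28

open Finset

/-- the weights of the lazy random walk -/
noncomputable def ww {G : Type} [Group G] [DecidableEq G] (S : Finset G) : ℕ → G → ℝ
  | 0 => fun g => if g = 1 then 1 else 0
  | t + 1 => fun g => 1 / 2 * ww S t g + 1 / (2 * (S.card : ℝ)) * ∑ s ∈ S, ww S t (g * s)

/-- the walk acting on functions -/
noncomputable def ee {G V : Type} [Group G] [Fintype G] [DecidableEq G] [MulAction G V]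
    (S : Finset G) (t : ℕ) (f : V → ℝ) (v : V) : ℝ :=
  ∑ g, ww S t g * f (g • v)

theorem ww_zero {G : Type} [Group G] [DecidableEq G] (S : Finset G) (g : G) :
    ww S 0 g = if g = 1 then 1 else 0 := rfl

theorem ww_succ {G : Type} [Group G] [DecidableEq G] (S : Finset G) (t : ℕ) (g : G) :
    ww S (t + 1) g = 1 / 2 * ww S t g + 1 / (2 * (S.card : ℝ)) * ∑ s ∈ S, ww S t (g * s) := rfl

theorem ww_nonneg {G : Type} [Group G] [DecidableEq G] (S : Finset G) :
    ∀ (t : ℕ) (g : G), 0 ≤ ww S t g := by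
  intro t
  induction t with
  | zero => intro g; rw [ww_zero]; split_ifs <;> norm_num
  | succ t ih =>
    intro g
    rw [ww_succ]
    have h1 : 0 ≤ ∑ s ∈ S, ww S t (g * s) := Finset.sum_nonneg fun s _ => ih _
    have h2 := ih g
    positivity

theorem ww_sum {G : Type} [Group G] [Fintype G] [DecidableEq G] (S : Finset G)
    (hd : 1 ≤ S.card) : ∀ t : ℕ, ∑ g, ww S t g = 1 := by
  intro t
  have hd0 : (0 : ℝ) < (S.card : ℝ) := by exact_mod_cast hd
  induction t with
  | zero => simp [ww]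
  | succ t ih =>
    simp only [ww]
    rw [Finset.sum_add_distrib, ← Finset.mul_sum, ← Finset.mul_sum, Finset.sum_comm, ih]
    have h1 : ∀ s ∈ S, ∑ g, ww S t (g * s) = 1 := by
      intro s _
      rw [← ih]
      exact Equiv.sum_comp (Equiv.mulRight s) (ww S t)
    rw [Finset.sum_congr rfl h1, Finset.sum_const, nsmul_eq_mul]
    field_simp
    norm_num

theorem ww_list {G : Type} [Group G] [DecidableEq G] (S : Finset G) (hS : ∀ s ∈ S, s⁻¹ ∈ S) :
    ∀ (t : ℕ) (g : G), ww S t g ≠ 0 →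
      ∃ l : List G, l.length ≤ t ∧ (∀ y ∈ l, y ∈ S) ∧ l.prod = g := by
  intro t
  induction t with
  | zero =>
    intro g hg
    rw [ww_zero] at hg
    refine ⟨[], le_refl _, by simp, ?_⟩
    by_contra h
    rw [if_neg] at hg
    · exact hg rfl
    · intro h1; exact h (by rw [h1]; simp)
  | succ t ih =>
    intro g hg
    rw [ww_succ] at hg
    by_cases h0 : ww S t g = 0
    · have h1 : ∑ s ∈ S, ww S t (g * s) ≠ 0 := by
        intro h; apply hg; rw [h0, h]; ring
      obtain ⟨s, hs, h2⟩ := Finset.exists_ne_zero_of_sum_ne_zero h1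
      obtain ⟨l, hl, hl2, hl3⟩ := ih _ h2
      refine ⟨l ++ [s⁻¹], by simpa using hl, ?_, ?_⟩
      · intro y hy
        rw [List.mem_append, List.mem_singleton] at hy
        rcases hy with hy | rfl
        · exact hl2 y hy
        · exact hS s hs
      · rw [List.prod_append, hl3]; simp
    · obtain ⟨l, hl, hl2, hl3⟩ := ih _ h0
      exact ⟨l, by omega, hl2, hl3⟩

theorem ee_succ {G V : Type} [Group G] [Fintype G] [DecidableEq G] [MulAction G V]
    (S : Finset G) (hS : ∀ s ∈ S, s⁻¹ ∈ S) (t : ℕ) (f : V → ℝ) (v : V) :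
    ee S (t + 1) f v = 1 / 2 * ee S t f v +
      1 / (2 * (S.card : ℝ)) * ∑ s ∈ S, ee S t f (s • v) := by
  have h1 : ∀ s : G, ∑ g, ww S t (g * s) * f (g • v) = ee S t f (s⁻¹ • v) := by
    intro s
    rw [ee, ← Equiv.sum_comp (Equiv.mulRight s) fun g => ww S t g * f (g • s⁻¹ • v)]
    refine Finset.sum_congr rfl fun g _ => ?_
    rw [Equiv.coe_mulRight, ← mul_smul, mul_inv_cancel_right]
  have h2 : ∑ s ∈ S, ee S t f (s⁻¹ • v) = ∑ s ∈ S, ee S t f (s • v) :=
    Finset.sum_nbij' (fun s => s⁻¹) (fun s => s⁻¹) hS hS (fun s _ => inv_inv s)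
      (fun s _ => inv_inv s) (fun s _ => rfl)
  calc ee S (t + 1) f v
      = ∑ g, (1 / 2 * (ww S t g * f (g • v)) +
          1 / (2 * (S.card : ℝ)) * ∑ s ∈ S, ww S t (g * s) * f (g • v)) := by
        rw [ee]
        refine Finset.sum_congr rfl fun g _ => ?_
        rw [ww_succ, ← Finset.sum_mul]
        ring
    _ = 1 / 2 * ee S t f v +
          1 / (2 * (S.card : ℝ)) * ∑ s ∈ S, ∑ g, ww S t (g * s) * f (g • v) := by
        rw [Finset.sum_add_distrib, ← Finset.mul_sum, ← Finset.mul_sum, Finset.sum_comm]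
        rfl
    _ = _ := by rw [Finset.sum_congr rfl fun s _ => h1 s, h2]

theorem ee_zero {G V : Type} [Group G] [Fintype G] [DecidableEq G] [MulAction G V]
    (S : Finset G) (f : V → ℝ) (v : V) : ee S 0 f v = f v := by
  simp [ee, ww]

theorem ee_sum {G V : Type} [Group G] [Fintype G] [DecidableEq G] [Fintype V] [MulAction G V]
    (S : Finset G) (t : ℕ) (f : V → ℝ) (hf : ∑ v, f v = 0) : ∑ v, ee S t f v = 0 := by
  simp only [ee]
  rw [Finset.sum_comm]
  refine Finset.sum_eq_zero fun g _ => ?_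
  rw [← Finset.mul_sum]
  have : ∑ v, f (g • v) = ∑ v, f v := Equiv.sum_comp (MulAction.toPerm g) f
  rw [this, hf, mul_zero]

theorem walk (hG : GapS) : WalkS := by
  intro G _ _ _ S hd hS t
  refine ⟨ww S t, ww_nonneg S t, ww_sum S hd t, ww_list S hS t, ?_⟩
  intro V _ _ _ htr v w
  have hV : 0 < Fintype.card V := Fintype.card_pos_iff.2 ⟨v⟩
  have hN : (1 : ℝ) ≤ (Fintype.card V : ℝ) := by exact_mod_cast hV
  have hN0 : (Fintype.card V : ℝ) ≠ 0 := by positivity
  have hd1 : (1 : ℝ) ≤ (S.card : ℝ) := by exact_mod_cast hd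
  set c : ℝ := 1 - 1 / (2 * (S.card : ℝ) * (Fintype.card V : ℝ) ^ 3) with hc
  have hc0 : 0 ≤ c := by
    have h1 : (1 : ℝ) ≤ 2 * (S.card : ℝ) * (Fintype.card V : ℝ) ^ 3 := by
      have h2 : (1 : ℝ) ≤ (Fintype.card V : ℝ) ^ 3 := one_le_pow₀ hN
      nlinarith
    have h3 : 1 / (2 * (S.card : ℝ) * (Fintype.card V : ℝ) ^ 3) ≤ 1 := by
      rw [div_le_one (by linarith)]
      exact h1
    rw [hc]; linarith
  set f : V → ℝ := fun x => (if x = w then 1 else 0) - 1 / (Fintype.card V : ℝ) with hf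
  have hf0 : ∑ x, f x = 0 := by
    simp only [hf]
    rw [Finset.sum_sub_distrib, Finset.sum_ite_eq' Finset.univ w, Finset.sum_const]
    simp [Finset.card_univ, hN0]
  have hf2 : ∑ x, f x ^ 2 ≤ 1 := by
    have h1 : ∀ x, f x ^ 2 = (if x = w then 1 - 2 / (Fintype.card V : ℝ) else 0) +
        1 / (Fintype.card V : ℝ) ^ 2 := by
      intro x
      simp only [hf]
      split_ifs <;> field_simp <;> ring
    simp only [h1]
    rw [Finset.sum_add_distrib, Finset.sum_ite_eq' Finset.univ w, Finset.sum_const,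
      Finset.card_univ, nsmul_eq_mul, if_pos (Finset.mem_univ w)]
    have h2 : (Fintype.card V : ℝ) * (1 / (Fintype.card V : ℝ) ^ 2) =
        1 / (Fintype.card V : ℝ) := by field_simp
    have h3 : 0 < 1 / (Fintype.card V : ℝ) := by positivity
    have h4 : 2 / (Fintype.card V : ℝ) = 2 * (1 / (Fintype.card V : ℝ)) := by ring
    rw [h2, h4]
    linarith
  have hind : ∀ t : ℕ, ∑ x, ee S t f x ^ 2 ≤ c ^ t := by
    intro t
    induction t with
    | zero =>
      simp only [ee_zero, pow_zero]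
      exact hf2
    | succ t ih =>
      have h1 := hG G S hd hS V htr (ee S t f) (ee_sum S t f hf0)
      have h2 : ∑ x, ee S (t + 1) f x ^ 2 = ∑ x, (1 / 2 * ee S t f x +
          1 / (2 * (S.card : ℝ)) * ∑ s ∈ S, ee S t f (s • x)) ^ 2 :=
        Finset.sum_congr rfl fun x _ => by rw [ee_succ S hS]
      rw [h2]
      refine h1.trans ?_
      rw [← hc, pow_succ, mul_comm]
      exact mul_le_mul_of_nonneg_right ih hc0
  have hev : ee S t f v = ∑ g, (if g • v = w then ww S t g else 0) -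
      1 / (Fintype.card V : ℝ) := by
    simp only [ee, hf, mul_sub, mul_ite, mul_one, mul_zero]
    rw [Finset.sum_sub_distrib, ← Finset.sum_mul, ww_sum S hd t, one_mul]
  rw [← hev]
  exact (Finset.single_le_sum (f := fun x => ee S t f x ^ 2)
    (fun x _ => sq_nonneg _) (Finset.mem_univ v)).trans (hind t)

end Pool.Agent.SymDiam.H28
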